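import Pool.Agent.KRK.Win

/-!
King and rook against king, WK a1, WR b2, BK c3, White to move, on the quarter-infinite board.
-/

namespace Pool.Agent.Results.MP_b88367_co.QuarterBoard

open Pool.Agent.KRK

/-- On the quarter-infinite board White can force checkmate from the starting position, within 39 moves. -/
theorem result : WinsIn quarter 39 start :=
  quarter_mono (m := 9) (n := 11) ⟨by decide, by decide, by decide, by decide⟩ Win.winsIn

end Pool.Agent.Results.MP_b88367_co.QuarterBoard
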