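import Pool.Agent.KRK.Strip
import Pool.Agent.KRK.Ten
import Pool.Agent.KRK.Win

/-!
King and rook against king, WK a1, WR b2, BK c3, White to move, on the board with `m` files and `n` ranks whose north
and east edges are exits for the Black king: White can force checkmate if and only if the board contains a 9 x 11 or an
11 x 9 board.
-/

namespace Pool.Agent.Results.MP_b88367_co.SmallestBoards

open Pool.Agent.KRK

theorem start_on {m n : ℕ} (hm : 3 ≤ m) (hn : 3 ≤ n) : (finite m n).on start.b :=
  ⟨by decide, hm, by decide, hn⟩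

/-- For boards with `m ≥ 3` files and `n ≥ 3` ranks, White can force checkmate from the starting position (WK a1,
WR b2, BK c3, White to move; the Black king wins by walking off the north or the east edge) if and only if
`m ≥ 9` and `n ≥ 11`, or `m ≥ 11` and `n ≥ 9`. -/
theorem result (m n : ℕ) (hm : 3 ≤ m) (hn : 3 ≤ n) :
    (∃ N, WinsIn (finite m n) N start) ↔ (9 ≤ m ∧ 11 ≤ n) ∨ (11 ≤ m ∧ 9 ≤ n) := by
  constructor
  · rintro ⟨N, h⟩
    by_contra hc
    have h8 : ∀ a b : ℕ, 3 ≤ a → 3 ≤ b → a ≤ 8 → ¬ WinsIn (finite a b) N start := fun a b ha hb ha8 hw =>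
      Strip.not_winsIn b N hb (finite_mono ha8 le_rfl (start_on ha hb) hw)
    rcases Nat.lt_or_ge 8 m with h1 | h1
    · rcases Nat.lt_or_ge 8 n with h2 | h2
      · exact Ten.not_winsIn N (finite_mono (by omega) (by omega) (start_on hm hn) h)
      · exact h8 n m hn hm h2 h.sw
    · exact h8 m n hm hn h1 h
  · rintro (⟨h1, h2⟩ | ⟨h1, h2⟩)
    · exact ⟨39, finite_mono h1 h2 (start_on (by decide) (by decide)) Win.winsIn⟩
    · exact ⟨39, finite_mono h1 h2 (start_on (by decide) (by decide)) Win.winsIn.sw⟩

end Pool.Agent.Results.MP_b88367_co.SmallestBoards
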